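import Pool.Agent.Lib.MP_1ffe94_lc.Graph
import Pool.Agent.Lib.PolyTime.Words

/-!
# The decision procedure
-/

namespace Pool.Agent.MajDom

open Pool.Agent.PolyTime

/-! ### The criterion for lists of naturals -/

theorem sum_get (ns : List ℕ) (f : ℕ → ℤ) :
    ∑ i : Fin ns.length, f (ns.get i) = (ns.map f).sum := by
  conv_rhs => rw [← List.ofFn_get ns]
  rw [List.map_ofFn, List.sum_ofFn]
  rfl

theorem sum_map_ite (ns : List ℕ) (p : ℕ → Prop) [DecidablePred p] (f : ℕ → ℤ) :
    (ns.map (fun x => if p x then f x else 0)).sum = ((ns.filter fun x => decide (p x)).map f).sum := by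
  induction ns with
  | nil => simp
  | cons x ns ih =>
    by_cases hx : p x
    · simp [hx, ih]
    · simp [hx, ih]

theorem sum_map_cast (l : List ℕ) : (l.map fun x : ℕ => (x : ℤ)).sum = (l.sum : ℕ) := by
  induction l with
  | nil => rfl
  | cons x l ih =>
    rw [List.map_cons, List.sum_cons, List.sum_cons, ih]
    push_cast
    rfl

theorem card_ones (ns : List ℕ) :
    (ones ns.get).card = (ns.filter fun x => decide (x = 1)).length := by
  have h1 : ((ones ns.get).card : ℤ) = ∑ i : Fin ns.length, (if ns.get i = 1 then 1 else 0) := by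
    unfold ones
    rw [Finset.card_filter]
    push_cast
    rfl
  have h2 := sum_get ns (fun x => if x = 1 then 1 else 0)
  rw [sum_map_ite ns (fun x => x = 1) (fun _ => 1)] at h2
  simp only [List.map_const', List.sum_replicate, nsmul_eq_mul, mul_one] at h2
  exact_mod_cast h1.trans h2

theorem card_bigs (ns : List ℕ) :
    (bigs ns.get).card = (ns.filter fun x => decide (¬ x = 1)).length := by
  have h1 : ((bigs ns.get).card : ℤ) = ∑ i : Fin ns.length, (if ¬ ns.get i = 1 then 1 else 0) := by
    unfold bigs
    rw [Finset.card_filter]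
    push_cast
    rfl
  have h2 := sum_get ns (fun x => if ¬ x = 1 then 1 else 0)
  rw [sum_map_ite ns (fun x => ¬ x = 1) (fun _ => 1)] at h2
  simp only [List.map_const', List.sum_replicate, nsmul_eq_mul, mul_one] at h2
  exact_mod_cast h1.trans h2

theorem sum_bigs (ns : List ℕ) :
    ∑ i ∈ bigs ns.get, (ns.get i : ℤ) = ((ns.filter fun x => decide (¬ x = 1)).sum : ℕ) := by
  unfold bigs
  rw [Finset.sum_filter]
  have h2 := sum_get ns (fun x => if ¬ x = 1 then (x : ℤ) else 0)
  rw [sum_map_ite ns (fun x => ¬ x = 1) (fun x => (x : ℤ))] at h2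
  rw [h2, sum_map_cast]

theorem forall_bigs (ns : List ℕ) (P : ℕ → Prop) :
    (∀ i ∈ bigs ns.get, P (ns.get i)) ↔ ∀ x ∈ ns.filter fun x => decide (¬ x = 1), P x := by
  constructor
  · intro h x hx
    obtain ⟨hx1, hx2⟩ := List.mem_filter.1 hx
    obtain ⟨i, hi⟩ := List.mem_iff_get.1 hx1
    have := h i (Finset.mem_filter.2 ⟨Finset.mem_univ _, by rw [hi]; simpa using hx2⟩)
    rwa [hi] at this
  · intro h i hi
    have h1 := (Finset.mem_filter.1 hi).2
    exact h _ (List.mem_filter.2 ⟨List.get_mem _ _, by simpa using h1⟩)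

/-- The list form of the criterion. -/
def CritN (ns : List ℕ) : Prop :=
  (ns.filter fun x => decide (x = 1)).length ≤ (ns.filter fun x => decide (¬ x = 1)).sum ∧
    ¬ ((∀ x ∈ ns.filter fun x => decide (¬ x = 1), x = 3) ∧
        ¬ 3 ∣ (ns.filter fun x => decide (x = 1)).length) ∧
    ¬ ((ns.filter fun x => decide (x = 1)).length = 1 ∧
        (ns.filter fun x => decide (¬ x = 1)).length = 1 ∧
        ∀ x ∈ ns.filter fun x => decide (¬ x = 1), x % 2 = 1) ∧
    ¬ ((ns.filter fun x => decide (x = 1)).length = 2 ∧
        (ns.filter fun x => decide (¬ x = 1)).length = 2 ∧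
        ∀ x ∈ ns.filter fun x => decide (¬ x = 1), x % 2 = 1 ∧
          ∀ y ∈ ns.filter fun x => decide (¬ x = 1), x = y)

theorem critN_iff (ns : List ℕ) : CritN ns ↔
    (((ones ns.get).card : ℤ) ≤ ∑ i ∈ bigs ns.get, (ns.get i : ℤ) ∧
      ¬ Exc ns.get (bigs ns.get) (ones ns.get).card) := by
  unfold Exc CritN
  rw [card_ones, card_bigs, sum_bigs]
  rw [forall_bigs ns (fun x => x = 3), forall_bigs ns (fun x => x % 2 = 1),
    forall_bigs ns (fun x => x % 2 = 1 ∧ ∀ j ∈ bigs ns.get, x = ns.get j)]
  have h1 : ∀ x, (∀ j ∈ bigs ns.get, x = ns.get j) ↔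
      ∀ y ∈ ns.filter fun x => decide (¬ x = 1), x = y := fun x => forall_bigs ns (fun y => x = y)
  simp only [h1]
  rw [not_or, not_or]
  constructor
  · rintro ⟨a, b, c, d⟩
    exact ⟨by exact_mod_cast a, b, c, d⟩
  · rintro ⟨a, b, c, d⟩
    exact ⟨by exact_mod_cast a, b, c, d⟩

theorem hasMDF_list {ns : List ℕ} (hpos : ∀ x ∈ ns, 0 < x) {k : ℕ} (hk : 0 < k) :
    (∃ f, IsMDF (SimpleGraph.completeMultipartiteGraph fun i : Fin ns.length => Fin (ns.get i)) f ∧
      ∑ v, f v ≤ (k : ℤ)) ↔ (2 ≤ k ∨ ns.sum % 2 = 1 ∨ CritN ns) := by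
  rw [hasMDF_iff, sol_iff (fun i => hpos _ (List.get_mem _ _)) (by exact_mod_cast hk), critN_iff]
  have h1 : ∑ i : Fin ns.length, (ns.get i : ℤ) = (ns.sum : ℕ) := by
    rw [sum_get ns (fun x => (x : ℤ)), sum_map_cast]
  rw [h1]
  constructor
  · rintro (h | h | h)
    · exact Or.inl (by exact_mod_cast h)
    · exact Or.inr (Or.inl (by omega))
    · exact Or.inr (Or.inr h)
  · rintro (h | h | h)
    · exact Or.inl (by exact_mod_cast h)
    · exact Or.inr (Or.inl (by omega))
    · exact Or.inr (Or.inr h)

/-! ### The criterion on binary words -/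

/-- The words coding `1`. -/
def onesW (ws : List (List Bool)) : List (List Bool) := ws.filter fun w => decide (w = [true])

/-- The words not coding `1`. -/
def bigsW (ws : List (List Bool)) : List (List Bool) := ws.filter fun w => !decide (w = [true])

/-- The decision procedure on the list of the binary expansions of the part sizes. -/
def critW (ws : List (List Bool)) : Bool :=
  decide ((onesW ws).length ≤ ((bigsW ws).map fun w => capVal (onesW ws).length w).sum) &&
    (!((bigsW ws).all (fun w => decide (w = [true, true])) &&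
        !decide ((onesW ws).length % 3 = 0)) &&
    (!(decide ((onesW ws).length = 1) && (decide ((bigsW ws).length = 1) &&
        (bigsW ws).all fun w => w.headD false)) &&
    !(decide ((onesW ws).length = 2) && (decide ((bigsW ws).length = 2) &&
        (bigsW ws).all fun w => w.headD false && decide (w = (bigsW ws).headD [])))))

/-- The decision procedure on the reversed list of blocks of the input. -/
def decW (bs : List (List Bool)) : Bool :=
  match bs with
  | [] => false
  | kb :: ws => !decide (kb = [true]) ||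
      (decide ((ws.map fun w => (w.headD false).toNat).sum % 2 = 1) || critW ws.reverse)

theorem bits_inj {m n : ℕ} (h : m.bits = n.bits) : m = n := by
  rw [← binVal_bits m, ← binVal_bits n, h]

theorem bits_eq_one (n : ℕ) : n.bits = [true] ↔ n = 1 :=
  ⟨fun h => bits_inj (h.trans (by simp)), fun h => by subst h; simp⟩

theorem bits_three : (3 : ℕ).bits = [true, true] := by
  have := Nat.bit1_bits 1
  simpa using this

theorem bits_head (n : ℕ) : n.bits.headD false = decide (n % 2 = 1) := by
  rcases Nat.eq_zero_or_pos n with rfl | hn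
  · simp
  · rcases Nat.even_or_odd' n with ⟨k, rfl | rfl⟩
    · rw [Nat.bit0_bits k (by omega)]; simp
    · rw [Nat.bit1_bits]; simp [Nat.add_mod]

theorem onesW_map (ns : List ℕ) :
    onesW (ns.map Nat.bits) = (ns.filter fun x => decide (x = 1)).map Nat.bits := by
  unfold onesW
  rw [List.filter_map]
  congr 1
  apply List.filter_congr
  intro x _
  simp only [Function.comp_apply, bits_eq_one]

theorem bigsW_map (ns : List ℕ) :
    bigsW (ns.map Nat.bits) = (ns.filter fun x => decide (¬ x = 1)).map Nat.bits := by
  unfold bigsW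
  rw [List.filter_map]
  congr 1
  apply List.filter_congr
  intro x _
  simp only [Function.comp_apply, bits_eq_one, decide_not]

theorem capped_sum (a : ℕ) (l : List ℕ) :
    a ≤ (l.map fun x => Min.min x a).sum ↔ a ≤ l.sum := by
  constructor
  · intro h
    refine h.trans ?_
    clear h
    induction l with
    | nil => simp
    | cons x l ih =>
      rw [List.map_cons, List.sum_cons, List.sum_cons]
      omega
  · intro h
    by_cases hx : ∃ x ∈ l, a ≤ x
    · obtain ⟨x, hx, hax⟩ := hx
      have h1 : Min.min x a ∈ l.map fun x => Min.min x a := List.mem_map.2 ⟨x, hx, rfl⟩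
      have := List.le_sum_of_mem h1
      omega
    · push Not at hx
      have : (l.map fun x => Min.min x a) = l := by
        conv_rhs => rw [← List.map_id l]
        apply List.map_congr_left
        intro x hxl
        have := hx x hxl
        simp only [id_eq]
        omega
      rw [this]; exact h

theorem all_bits_iff (l : List ℕ) (P : List Bool → Bool) (Q : ℕ → Prop)
    (h : ∀ x ∈ l, P x.bits = true ↔ Q x) : (l.map Nat.bits).all P = true ↔ ∀ x ∈ l, Q x := by
  rw [List.all_eq_true]
  constructor
  · intro h1 x hx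
    exact (h x hx).1 (h1 _ (List.mem_map.2 ⟨x, hx, rfl⟩))
  · intro h1 w hw
    obtain ⟨x, hx, rfl⟩ := List.mem_map.1 hw
    exact (h x hx).2 (h1 x hx)

theorem critW_iff (ns : List ℕ) : critW (ns.map Nat.bits) = true ↔ CritN ns := by
  unfold critW CritN
  rw [onesW_map, bigsW_map]
  generalize hA : (ns.filter fun x => decide (x = 1)) = A
  generalize hB : (ns.filter fun x => decide (¬ x = 1)) = B
  have e1 : ((B.map Nat.bits).map fun w => capVal (A.map Nat.bits).length w).sum =
      (B.map fun x => Min.min x A.length).sum := by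
    rw [List.map_map]
    congr 1
    apply List.map_congr_left
    intro x _
    rw [Function.comp_apply, capVal_bits, List.length_map]
  have e2 : (B.map Nat.bits).all (fun w => decide (w = [true, true])) = true ↔ ∀ x ∈ B, x = 3 :=
    all_bits_iff _ _ _ fun x _ => by
      rw [decide_eq_true_eq]
      exact ⟨fun h => bits_inj (h.trans bits_three.symm), fun h => by rw [h, bits_three]⟩
  have e3 : (B.map Nat.bits).all (fun w => w.headD false) = true ↔ ∀ x ∈ B, x % 2 = 1 :=
    all_bits_iff _ _ _ fun x _ => by rw [bits_head, decide_eq_true_eq]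
  have e4 : (B.map Nat.bits).all (fun w => w.headD false &&
      decide (w = (B.map Nat.bits).headD [])) = true ↔ ∀ x ∈ B, x % 2 = 1 ∧ ∀ y ∈ B, x = y := by
    cases B with
    | nil => simp
    | cons z B =>
      rw [List.map_cons, List.headD_cons, ← List.map_cons]
      rw [all_bits_iff (z :: B) _ (fun x => x % 2 = 1 ∧ x = z) (fun x _ => by
        rw [Bool.and_eq_true, bits_head, decide_eq_true_eq, decide_eq_true_eq]
        exact ⟨fun h => ⟨h.1, bits_inj h.2⟩, fun h => ⟨h.1, by rw [h.2]⟩⟩)]
      constructor
      · intro h x hx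
        exact ⟨(h x hx).1, fun y hy => (h x hx).2.trans (h y hy).2.symm⟩
      · intro h x hx
        exact ⟨(h x hx).1, (h x hx).2 z (by simp)⟩
  rw [e1]
  simp only [Bool.and_eq_true, Bool.not_eq_eq_eq_not, Bool.not_true, ← Bool.not_eq_true, e2, e3, e4,
    decide_eq_true_eq, List.length_map, capped_sum]
  rw [Nat.dvd_iff_mod_eq_zero]

/-! ### The encoding -/

/-- The binary encoding of an instance: the part sizes, each followed by a separator, and the bound. -/
def encodeList (ns : List ℕ) (k : ℕ) : List (Option Bool) :=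
  (ns.flatMap fun n => n.bits.map some ++ [none]) ++ k.bits.map some

theorem blocks_encodeList (ns : List ℕ) (k : ℕ) :
    blocks (encodeList ns k) = ns.map Nat.bits ++ [k.bits] := by
  unfold encodeList
  induction ns with
  | nil => simp [blocks_some]
  | cons n ns ih =>
    rw [List.flatMap_cons, List.append_assoc, List.append_assoc, List.singleton_append, blocks_cons,
      ih]
    rfl

theorem decW_iff {ns : List ℕ} {k : ℕ} (hk : 0 < k) :
    decW (blocks (encodeList ns k)).reverse = true ↔ (2 ≤ k ∨ ns.sum % 2 = 1 ∨ CritN ns) := by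
  rw [blocks_encodeList, List.reverse_append, List.reverse_singleton, List.singleton_append]
  unfold decW
  simp only [Bool.or_eq_true, List.reverse_reverse, critW_iff, Bool.not_eq_eq_eq_not, Bool.not_true,
    decide_eq_false_iff_not, decide_eq_true_eq, bits_eq_one]
  have h1 : ((ns.map Nat.bits).reverse.map fun w => (w.headD false).toNat).sum % 2 = ns.sum % 2 := by
    rw [List.map_reverse, List.sum_reverse, List.map_map]
    induction ns with
    | nil => rfl
    | cons x ns ih =>
      rw [List.map_cons, List.sum_cons, List.sum_cons, Nat.add_mod, ih, Nat.add_mod x]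
      congr 2
      rw [Function.comp_apply, bits_head]
      rcases Nat.mod_two_eq_zero_or_one x with h | h <;> simp [h]
  rw [h1]
  have h2 : (¬ k = 1) ↔ 2 ≤ k := by omega
  rw [h2]

/-! ### Polynomial time -/

theorem poly_onesW : PolyFn onesW :=
  PolyFn.filter (γ := List (List Bool)) (p := fun _ w => decide (w = [true]))
    (PolyFn.decide_eq PolyFn.snd (PolyFn.const [true])) PolyFn.id

theorem poly_bigsW : PolyFn bigsW :=
  PolyFn.filter (γ := List (List Bool)) (p := fun _ w => !decide (w = [true]))
    (PolyFn.not (PolyFn.decide_eq PolyFn.snd (PolyFn.const [true]))) PolyFn.id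

theorem poly_critW : PolyFn critW := by
  have hA : PolyFn (fun ws => (onesW ws).length) := PolyFn.length poly_onesW
  have hB : PolyFn (fun ws => (bigsW ws).length) := PolyFn.length poly_bigsW
  refine PolyFn.and (PolyFn.decide_le hA (PolyFn.sum (PolyFn.map (f := fun ws w => capVal (onesW ws).length w)
    (PolyFn.capVal (hA.comp PolyFn.fst) PolyFn.snd) poly_bigsW))) (PolyFn.and (PolyFn.not (PolyFn.and
    (PolyFn.all (p := fun _ w => decide (w = [true, true]))
      (PolyFn.decide_eq PolyFn.snd (PolyFn.const _)) poly_bigsW)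
    (PolyFn.not (PolyFn.decide_eq_nat (PolyFn.mod hA (PolyFn.const 3)) (PolyFn.const 0)))))
    (PolyFn.and (PolyFn.not (PolyFn.and (PolyFn.decide_eq_nat hA (PolyFn.const 1)) (PolyFn.and
      (PolyFn.decide_eq_nat hB (PolyFn.const 1)) (PolyFn.all (p := fun _ w => w.headD false)
        (PolyFn.headD PolyFn.snd (PolyFn.const false)) poly_bigsW))))
      (PolyFn.not (PolyFn.and (PolyFn.decide_eq_nat hA (PolyFn.const 2)) (PolyFn.and
      (PolyFn.decide_eq_nat hB (PolyFn.const 2)) (PolyFn.all
        (p := fun ws w => w.headD false && decide (w = (bigsW ws).headD []))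
        (PolyFn.and (PolyFn.headD PolyFn.snd (PolyFn.const false)) (PolyFn.decide_eq PolyFn.snd
          (PolyFn.headD (poly_bigsW.comp PolyFn.fst) (PolyFn.const [])))) poly_bigsW))))))

theorem poly_decW : PolyFn decW := by
  refine PolyFn.listCase (l := fun bs : List (List Bool) => bs) (f := fun _ => false)
    (g := fun _ kb ws => !decide (kb = [true]) ||
      (decide ((ws.map fun w => (w.headD false).toNat).sum % 2 = 1) || critW ws.reverse))
    PolyFn.id (PolyFn.const false) ?_ (fun c h => by rw [h]; rfl) (fun c a t h => by rw [h]; rfl)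
  refine PolyFn.or (PolyFn.not (PolyFn.decide_eq (PolyFn.fst.comp PolyFn.snd) (PolyFn.const [true])))
    (PolyFn.or (PolyFn.decide_eq_nat (PolyFn.mod (PolyFn.sum (PolyFn.map
      (f := fun _ (w : List Bool) => (w.headD false).toNat)
      (PolyFn.toNat (PolyFn.headD PolyFn.snd (PolyFn.const false))) (PolyFn.snd.comp PolyFn.snd)))
      (PolyFn.const 2)) (PolyFn.const 1)) (poly_critW.comp (PolyFn.reverse (PolyFn.snd.comp PolyFn.snd))))

end Pool.Agent.MajDom
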