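import Mathlib

/-!
# Majority domination of complete multipartite graphs: the arithmetic core

For a part with `n` vertices, `p` of which have value `+1`, the part sum is `2 p - n`. If the total
weight is `S`, then the number of vertices of the part whose closed neighbourhood sum is at least `1`
is `sat S n p`.
-/

namespace Pool.Agent.MajDom

/-- Number of satisfied vertices in a part with `n` vertices, `p` of them positive, if the total
weight is `S`. -/
def sat (S : ℤ) (n p : ℕ) : ℤ :=
  (if 2 * (p : ℤ) - n ≤ S then (p : ℤ) else 0) + (if 2 * (p : ℤ) - n ≤ S - 2 then (n : ℤ) - p else 0)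

/-- Twice the number of satisfied vertices minus the number of vertices, weight `0`. -/
def gain (n p : ℕ) : ℤ := 2 * sat 0 n p - n

variable {ι : Type*} [DecidableEq ι]

/-- The parts in `I` can be given positive counts with total weight any `t ∈ [-x, y]` of the right
parity, and with total gain at least `x`. -/
def Feas (n : ι → ℕ) (I : Finset ι) (x y : ℤ) : Prop :=
  ∀ t : ℤ, -x ≤ t → t ≤ y → 2 ∣ (y - t) → ∃ p : ι → ℕ, (∀ i ∈ I, p i ≤ n i) ∧
    ∑ i ∈ I, (2 * (p i : ℤ) - n i) = t ∧ x ≤ ∑ i ∈ I, gain (n i) (p i)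

omit [DecidableEq ι] in
theorem feas_empty (n : ι → ℕ) : Feas n ∅ 0 0 := by
  intro t h1 h2 _
  exact ⟨fun _ => 0, by simp, by simp; omega, by simp⟩

theorem feas_insert {n : ι → ℕ} {I : Finset ι} {i : ι} (hi : i ∉ I) {x y x' y' : ℤ}
    (h : ∀ t : ℤ, -x' ≤ t → t ≤ y' → 2 ∣ (y' - t) → ∃ q : ℕ, q ≤ n i ∧
      -x ≤ t - (2 * (q : ℤ) - n i) ∧ t - (2 * (q : ℤ) - n i) ≤ y ∧
      2 ∣ (y - (t - (2 * (q : ℤ) - n i))) ∧ x' ≤ x + gain (n i) q)
    (hI : Feas n I x y) : Feas n (insert i I) x' y' := by
  intro t h1 h2 h3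
  obtain ⟨q, hq, h4, h5, h6, h7⟩ := h t h1 h2 h3
  obtain ⟨p, hp, hp1, hp2⟩ := hI _ h4 h5 h6
  have hne : ∀ j ∈ I, j ≠ i := by
    rintro j hj rfl
    exact hi hj
  refine ⟨Function.update p i q, ?_, ?_, ?_⟩
  · intro j hj
    rcases Finset.mem_insert.1 hj with rfl | hj
    · simpa using hq
    · rw [Function.update_of_ne (hne j hj)]
      exact hp j hj
  · rw [Finset.sum_insert hi, Function.update_self]
    rw [Finset.sum_congr rfl (g := fun j => 2 * (p j : ℤ) - n j) (fun j hj => by
      rw [Function.update_of_ne (hne j hj)]), hp1]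
    ring
  · rw [Finset.sum_insert hi, Function.update_self]
    rw [Finset.sum_congr rfl (g := fun j => gain (n j) (p j)) (fun j hj => by
      rw [Function.update_of_ne (hne j hj)])]
    omega

/-- Put the part `i` (even size) into the class `A`. -/
theorem feas_A_even {n : ι → ℕ} {I : Finset ι} {i : ι} (hi : i ∉ I) {x y : ℤ}
    (hxy : 0 ≤ x + y) (hn : 2 ≤ n i) (he : n i % 2 = 0) (hI : Feas n I x y) :
    Feas n (insert i I) (x + n i) (y - 2) := by
  refine feas_insert hi (fun t h1 h2 h3 => ?_) hI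
  rcases le_total (-(n i : ℤ)) (t - y) with h | h
  · refine ⟨((t - y + n i) / 2).toNat, ?_, ?_, ?_, ?_, ?_⟩
    · omega
    · omega
    · omega
    · omega
    · have e : (((t - y + n i) / 2).toNat : ℤ) = (t - y + n i) / 2 := by omega
      unfold gain sat
      rw [e, if_pos (by omega), if_pos (by omega)]
      omega
  · refine ⟨0, ?_, ?_, ?_, ?_, ?_⟩
    · omega
    · push_cast; omega
    · push_cast; omega
    · push_cast; omega
    · unfold gain sat
      push_cast
      rw [if_pos (by omega), if_pos (by omega)]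
      omega

/-- Put the part `i` (odd size) into the class `A`. -/
theorem feas_A_odd {n : ι → ℕ} {I : Finset ι} {i : ι} (hi : i ∉ I) {x y : ℤ}
    (hxy : 0 ≤ x + y) (hn : 3 ≤ n i) (he : n i % 2 = 1) (hI : Feas n I x y) :
    Feas n (insert i I) (x + n i) (y - 3) := by
  refine feas_insert hi (fun t h1 h2 h3 => ?_) hI
  rcases le_total (-(n i : ℤ)) (t - y) with h | h
  · refine ⟨((t - y + n i) / 2).toNat, ?_, ?_, ?_, ?_, ?_⟩
    · omega
    · omega
    · omega
    · omega
    · have e : (((t - y + n i) / 2).toNat : ℤ) = (t - y + n i) / 2 := by omega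
      unfold gain sat
      rw [e, if_pos (by omega), if_pos (by omega)]
      omega
  · refine ⟨0, ?_, ?_, ?_, ?_, ?_⟩
    · omega
    · push_cast; omega
    · push_cast; omega
    · push_cast; omega
    · unfold gain sat
      push_cast
      rw [if_pos (by omega), if_pos (by omega)]
      omega

/-- Put the part `i` (even size) into the class `B`. -/
theorem feas_B_even {n : ι → ℕ} {I : Finset ι} {i : ι} (hi : i ∉ I) {x y : ℤ}
    (he : n i % 2 = 0) (hI : Feas n I x y) : Feas n (insert i I) x y := by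
  refine feas_insert hi (fun t h1 h2 h3 => ?_) hI
  refine ⟨n i / 2, ?_, ?_, ?_, ?_, ?_⟩
  · omega
  · omega
  · omega
  · omega
  · unfold gain sat
    rw [if_pos (by omega), if_neg (by omega)]
    omega

/-- Put the part `i` (odd size) into the class `B`. -/
theorem feas_B_odd {n : ι → ℕ} {I : Finset ι} {i : ι} (hi : i ∉ I) {x y : ℤ}
    (he : n i % 2 = 1) (hI : Feas n I x y) : Feas n (insert i I) (x - 1) (y - 1) := by
  refine feas_insert hi (fun t h1 h2 h3 => ?_) hI
  refine ⟨n i / 2, ?_, ?_, ?_, ?_, ?_⟩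
  · omega
  · omega
  · omega
  · omega
  · unfold gain sat
    rw [if_pos (by omega), if_neg (by omega)]
    omega

/-- Put the part `i` into the class `C`. -/
theorem feas_C {n : ι → ℕ} {I : Finset ι} {i : ι} (hi : i ∉ I) {x y : ℤ}
    (hI : Feas n I x y) : Feas n (insert i I) (x - n i) (y + n i) := by
  refine feas_insert hi (fun t h1 h2 h3 => ?_) hI
  refine ⟨n i, le_rfl, ?_, ?_, ?_, ?_⟩
  · omega
  · omega
  · omega
  · unfold gain sat
    split_ifs <;> omega

omit [DecidableEq ι] in
theorem Feas.mono {n : ι → ℕ} {I : Finset ι} {x y x' y' : ℤ} (h : Feas n I x y) (hx : x' ≤ x)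
    (hy : y' ≤ y) (hp : 2 ∣ (y - y')) : Feas n I x' y' := by
  intro t h1 h2 h3
  obtain ⟨p, h4, h5, h6⟩ := h t (by omega) (by omega) (by omega)
  exact ⟨p, h4, h5, by omega⟩

/-- Put all parts (odd sizes) into the class `A`. -/
theorem feas_all_A {n : ι → ℕ} (I : Finset ι) (h3 : ∀ i ∈ I, 2 ≤ n i) :
    ∃ y : ℤ, Feas n I (∑ i ∈ I, (n i : ℤ)) y ∧ 0 ≤ (∑ i ∈ I, (n i : ℤ)) + y ∧
      y = -∑ i ∈ I, (2 + (n i % 2 : ℕ) : ℤ) := by
  induction I using Finset.induction_on with
  | empty => exact ⟨0, by simpa using feas_empty n, by simp, by simp⟩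
  | insert i I hi ih =>
    obtain ⟨y, hy, hy0, hye⟩ := ih (fun j hj => h3 j (Finset.mem_insert_of_mem hj))
    have hi3 := h3 i (Finset.mem_insert_self _ _)
    rw [Finset.sum_insert hi, Finset.sum_insert hi]
    rcases Nat.mod_two_eq_zero_or_one (n i) with h | h
    · refine ⟨y - 2, ?_, ?_, ?_⟩
      · have := feas_A_even hi hy0 hi3 h hy
        rwa [add_comm] at this
      · omega
      · rw [hye, h]; push_cast; ring
    · refine ⟨y - 3, ?_, ?_, ?_⟩
      · have := feas_A_odd hi hy0 (by omega) h hy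
        rwa [add_comm] at this
      · omega
      · rw [hye, h]; push_cast; ring

end Pool.Agent.MajDom
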