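import Pool.Agent.Lib.MP_1ffe94_lc.No

/-!
# Majority dominating functions of complete multipartite graphs
-/

namespace Pool.Agent.MajDom

open scoped Classical in
/-- The sum of `f` over the closed neighbourhood of `v`. -/
noncomputable def closedSum {V : Type*} [Fintype V] (G : SimpleGraph V) (f : V → ℤ) (v : V) : ℤ :=
  f v + ∑ u with G.Adj v u, f u

/-- `f` is a majority dominating function of `G`: its values are `-1` and `1`, and at least half of
the vertices `v` satisfy `f(N[v]) ≥ 1`. -/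
def IsMDF {V : Type*} [Fintype V] (G : SimpleGraph V) (f : V → ℤ) : Prop :=
  (∀ v, f v = -1 ∨ f v = 1) ∧
    (Fintype.card V : ℚ) / 2 ≤ (({v | 1 ≤ closedSum G f v} : Set V).ncard : ℚ)

variable {ι : Type*} [DecidableEq ι] [Fintype ι]

/-- The number of vertices with value `1` in each part. -/
def pcount (n : ι → ℕ) (f : (Σ i, Fin (n i)) → ℤ) (i : ι) : ℕ :=
  (Finset.univ.filter fun j : Fin (n i) => f ⟨i, j⟩ = 1).card

omit [DecidableEq ι] [Fintype ι] in
theorem pcount_le (n : ι → ℕ) (f : (Σ i, Fin (n i)) → ℤ) (i : ι) : pcount n f i ≤ n i := by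
  unfold pcount
  exact (Finset.card_le_univ _).trans (by simp)

omit [DecidableEq ι] [Fintype ι] in
theorem part_sum {n : ι → ℕ} {f : (Σ i, Fin (n i)) → ℤ} (hf : ∀ v, f v = -1 ∨ f v = 1) (i : ι) :
    ∑ j, f ⟨i, j⟩ = 2 * (pcount n f i : ℤ) - n i := by
  have h1 : ∀ j, f ⟨i, j⟩ = 2 * (if f ⟨i, j⟩ = 1 then 1 else 0) - 1 := by
    intro j
    rcases hf ⟨i, j⟩ with h | h <;> rw [h] <;> norm_num
  rw [Finset.sum_congr rfl (fun j _ => h1 j), Finset.sum_sub_distrib, ← Finset.mul_sum]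
  simp [pcount]

omit [DecidableEq ι] in
theorem total_sum {n : ι → ℕ} {f : (Σ i, Fin (n i)) → ℤ} (hf : ∀ v, f v = -1 ∨ f v = 1) :
    ∑ v, f v = ∑ i, (2 * (pcount n f i : ℤ) - n i) := by
  rw [Fintype.sum_sigma]
  exact Finset.sum_congr rfl fun i _ => part_sum hf i

omit [DecidableEq ι] in
theorem closedSum_eq {n : ι → ℕ} {f : (Σ i, Fin (n i)) → ℤ} (hf : ∀ v, f v = -1 ∨ f v = 1)
    (i : ι) (j : Fin (n i)) :
    closedSum (SimpleGraph.completeMultipartiteGraph fun i : ι => Fin (n i)) f ⟨i, j⟩ =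
      f ⟨i, j⟩ + (∑ i, (2 * (pcount n f i : ℤ) - n i) - (2 * (pcount n f i : ℤ) - n i)) := by
  classical
  unfold closedSum
  congr 1
  have h1 : ∀ u : (Σ i, Fin (n i)), (SimpleGraph.completeMultipartiteGraph
      fun i : ι => Fin (n i)).Adj ⟨i, j⟩ u ↔ ¬ u.1 = i := by
    intro v
    simp only [SimpleGraph.comap_adj, SimpleGraph.top_adj]
    exact ⟨fun h h' => h h'.symm, fun h h' => h h'.symm⟩
  have h2 : ∑ v : (Σ i, Fin (n i)), f v = ∑ v ∈ Finset.univ.filter
      (fun v : (Σ i, Fin (n i)) => v.1 = i), f v + ∑ v ∈ Finset.univ.filter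
      (fun v : (Σ i, Fin (n i)) => ¬ v.1 = i), f v :=
    (Finset.sum_filter_add_sum_filter_not _ _ _).symm
  have h3 : ∑ v ∈ Finset.univ.filter (fun v : (Σ i, Fin (n i)) => v.1 = i), f v =
      ∑ j, f ⟨i, j⟩ := by
    rw [Finset.sum_filter, Fintype.sum_sigma]
    rw [Finset.sum_eq_single i]
    · simp
    · intro b _ hb
      simp [hb]
    · simp
  rw [← part_sum hf i, ← h3, ← total_sum hf, h2]
  refine Eq.trans (b := ∑ v ∈ Finset.univ.filter
      (fun v : (Σ i, Fin (n i)) => ¬ v.1 = i), f v) ?_ (by ring)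
  rw [Finset.sum_filter, Finset.sum_filter]
  refine Finset.sum_congr rfl (fun u _ => ?_)
  by_cases h : u.1 = i
  · rw [if_neg (fun h' => (h1 u).1 h' h), if_neg (fun h' => h' h)]
  · rw [if_pos ((h1 u).2 h), if_pos h]

omit [DecidableEq ι] [Fintype ι] in
theorem card_part_sat {n : ι → ℕ} {f : (Σ i, Fin (n i)) → ℤ} (hf : ∀ v, f v = -1 ∨ f v = 1)
    (i : ι) (S : ℤ) :
    (((Finset.univ.filter fun j : Fin (n i) =>
      1 ≤ f ⟨i, j⟩ + (S - (2 * (pcount n f i : ℤ) - n i))).card : ℕ) : ℤ) =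
      sat S (n i) (pcount n f i) := by
  have hcard : (n i : ℤ) = (Finset.univ.filter fun j : Fin (n i) => f ⟨i, j⟩ = 1).card +
      (Finset.univ.filter fun j : Fin (n i) => ¬ f ⟨i, j⟩ = 1).card := by
    have := Finset.card_filter_add_card_filter_not (s := (Finset.univ : Finset (Fin (n i))))
      (fun j => f ⟨i, j⟩ = 1)
    rw [Finset.card_univ, Fintype.card_fin] at this
    exact_mod_cast this.symm
  have hsplit : (Finset.univ.filter fun j : Fin (n i) =>
      1 ≤ f ⟨i, j⟩ + (S - (2 * (pcount n f i : ℤ) - n i))) =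
      (Finset.univ.filter fun j : Fin (n i) => f ⟨i, j⟩ = 1 ∧ 2 * (pcount n f i : ℤ) - n i ≤ S) ∪
      (Finset.univ.filter fun j : Fin (n i) => ¬ f ⟨i, j⟩ = 1 ∧
        2 * (pcount n f i : ℤ) - n i ≤ S - 2) := by
    ext j
    simp only [Finset.mem_filter, Finset.mem_univ, true_and, Finset.mem_union]
    rcases hf ⟨i, j⟩ with h | h
    · rw [h]; omega
    · rw [h]; omega
  have hdisj : Disjoint
      (Finset.univ.filter fun j : Fin (n i) => f ⟨i, j⟩ = 1 ∧ 2 * (pcount n f i : ℤ) - n i ≤ S)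
      (Finset.univ.filter fun j : Fin (n i) => ¬ f ⟨i, j⟩ = 1 ∧
        2 * (pcount n f i : ℤ) - n i ≤ S - 2) := by
    rw [Finset.disjoint_left]
    intro j h1 h2
    exact (Finset.mem_filter.1 h2).2.1 (Finset.mem_filter.1 h1).2.1
  rw [hsplit, Finset.card_union_of_disjoint hdisj]
  unfold sat
  by_cases h1 : 2 * (pcount n f i : ℤ) - n i ≤ S
  · by_cases h2 : 2 * (pcount n f i : ℤ) - n i ≤ S - 2
    · rw [if_pos h1, if_pos h2]
      simp only [h1, h2, and_true]
      change (((Finset.univ.filter fun j : Fin (n i) => f ⟨i, j⟩ = 1).card +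
        (Finset.univ.filter fun j : Fin (n i) => ¬ f ⟨i, j⟩ = 1).card : ℕ) : ℤ) = _
      unfold pcount
      push_cast
      omega
    · rw [if_pos h1, if_neg h2]
      simp only [h1, h2, and_true, and_false, Finset.filter_false, Finset.card_empty]
      rfl
  · have h2 : ¬ 2 * (pcount n f i : ℤ) - n i ≤ S - 2 := by omega
    rw [if_neg h1, if_neg h2]
    simp [h1, h2]

omit [DecidableEq ι] in
theorem isMDF_iff {n : ι → ℕ} {k : ℤ} {f : (Σ i, Fin (n i)) → ℤ} (hf : ∀ v, f v = -1 ∨ f v = 1) :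
    (IsMDF (SimpleGraph.completeMultipartiteGraph fun i : ι => Fin (n i)) f ∧ ∑ v, f v ≤ k) ↔
      Sol k n (pcount n f) := by
  have hncard : ((({v | 1 ≤ closedSum (SimpleGraph.completeMultipartiteGraph
      fun i : ι => Fin (n i)) f v} : Set (Σ i, Fin (n i))).ncard : ℕ) : ℤ) =
      ∑ i, sat (∑ i, (2 * (pcount n f i : ℤ) - n i)) (n i) (pcount n f i) := by
    have h1 : ({v | 1 ≤ closedSum (SimpleGraph.completeMultipartiteGraph
      fun i : ι => Fin (n i)) f v} : Set (Σ i, Fin (n i))) =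
      ((Finset.univ.sigma fun i => Finset.univ.filter fun j : Fin (n i) =>
        1 ≤ f ⟨i, j⟩ + (∑ i, (2 * (pcount n f i : ℤ) - n i) -
          (2 * (pcount n f i : ℤ) - n i)) : Finset (Σ i, Fin (n i))) : Set (Σ i, Fin (n i))) := by
      ext ⟨i, j⟩
      simp only [Set.mem_ofPred_eq, closedSum_eq hf, Finset.coe_sigma, Set.mem_sigma_iff,
        Finset.mem_coe, Finset.mem_univ, Finset.mem_filter, true_and]
    rw [h1, Set.ncard_coe_finset, Finset.card_sigma]
    push_cast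
    exact Finset.sum_congr rfl fun i _ => card_part_sat hf i _
  unfold IsMDF Sol
  rw [total_sum hf]
  have hcardV : (Fintype.card (Σ i, Fin (n i)) : ℚ) = ((∑ i, (n i : ℤ) : ℤ) : ℚ) := by
    rw [Fintype.card_sigma]
    push_cast
    simp
  have hiff : ((Fintype.card (Σ i, Fin (n i)) : ℚ) / 2 ≤ ((({v | 1 ≤ closedSum
      (SimpleGraph.completeMultipartiteGraph fun i : ι => Fin (n i)) f v} :
      Set (Σ i, Fin (n i))).ncard : ℕ) : ℚ)) ↔
      ∑ i, (n i : ℤ) ≤ 2 * ∑ i, sat (∑ i, (2 * (pcount n f i : ℤ) - n i)) (n i) (pcount n f i) := by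
    rw [← hncard, hcardV, div_le_iff₀ (by norm_num)]
    rw [← Int.cast_natCast (R := ℚ), mul_comm]
    exact_mod_cast Iff.rfl
  constructor
  · rintro ⟨⟨-, h2⟩, h3⟩
    exact ⟨pcount_le n f, h3, hiff.1 h2⟩
  · rintro ⟨-, h3, h2⟩
    exact ⟨⟨hf, hiff.2 h2⟩, h3⟩

omit [DecidableEq ι] in
/-- Majority dominating functions of weight at most `k` of a complete multipartite graph. -/
theorem hasMDF_iff {n : ι → ℕ} {k : ℤ} :
    (∃ f, IsMDF (SimpleGraph.completeMultipartiteGraph fun i : ι => Fin (n i)) f ∧ ∑ v, f v ≤ k) ↔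
      ∃ p, Sol k n p := by
  constructor
  · rintro ⟨f, hf⟩
    exact ⟨_, (isMDF_iff hf.1.1).1 hf⟩
  · rintro ⟨p, hp⟩
    have hf : ∀ v : (Σ i, Fin (n i)), (fun v : (Σ i, Fin (n i)) => if v.2.val < p v.1 then (1 : ℤ)
        else -1) v = -1 ∨ (fun v : (Σ i, Fin (n i)) => if v.2.val < p v.1 then (1 : ℤ) else -1) v = 1 := by
      intro v
      simp only
      split_ifs <;> simp
    refine ⟨_, (isMDF_iff hf).2 ?_⟩
    have : pcount n (fun v : (Σ i, Fin (n i)) => if v.2.val < p v.1 then (1 : ℤ) else -1) = p := by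
      funext i
      unfold pcount
      have h1 := hp.1 i
      have h2 : (Finset.univ.filter fun j : Fin (n i) =>
          (if j.val < p i then (1 : ℤ) else -1) = 1) =
          Finset.univ.filter fun j : Fin (n i) => j.val < p i := by
        apply Finset.filter_congr
        intro j _
        split_ifs with h <;> simp [h]
      simp only
      rw [h2, Fin.card_filter_val_lt]
      omega
    rw [this]
    exact hp

end Pool.Agent.MajDom
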