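import Pool.Agent.Lib.MP_1ffe94_lc.Yes

/-!
# The arithmetic criterion
-/

namespace Pool.Agent.MajDom

theorem sat_one {S : ℤ} (hS : S ≤ 0) {p : ℕ} (hp : p ≤ 1) : sat S 1 p = 0 := by
  unfold sat
  rcases (by omega : p = 0 ∨ p = 1) with rfl | rfl
  · split_ifs <;> push_cast at * <;> omega
  · split_ifs <;> push_cast at * <;> omega

theorem sat_le {S : ℤ} {n p : ℕ} (hp : p ≤ n) : sat S n p ≤ n := by
  unfold sat
  split_ifs <;> omega

theorem sat_nonneg {S : ℤ} {n p : ℕ} (hp : p ≤ n) : 0 ≤ sat S n p := by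
  unfold sat
  split_ifs <;> omega

variable {ι : Type*} [DecidableEq ι] [Fintype ι]

/-- The parts of size one. -/
def ones (n : ι → ℕ) : Finset ι := Finset.univ.filter fun i => n i = 1

/-- The parts of size different from one. -/
def bigs (n : ι → ℕ) : Finset ι := Finset.univ.filter fun i => ¬ n i = 1

omit [DecidableEq ι] in
theorem sum_split (n : ι → ℕ) (f : ι → ℤ) : ∑ i, f i = ∑ i ∈ ones n, f i + ∑ i ∈ bigs n, f i :=
  (Finset.sum_filter_add_sum_filter_not _ _ _).symm

/-- The arithmetic form of the existence of a majority dominating function of weight at most `k`,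
with positive counts `p`. -/
def Sol (k : ℤ) (n p : ι → ℕ) : Prop :=
  (∀ i, p i ≤ n i) ∧ ∑ i, (2 * (p i : ℤ) - n i) ≤ k ∧
    ∑ i, (n i : ℤ) ≤ 2 * ∑ i, sat (∑ i, (2 * (p i : ℤ) - n i)) (n i) (p i)

omit [DecidableEq ι] in
theorem sum_ones_n (n : ι → ℕ) : ∑ i ∈ ones n, (n i : ℤ) = (ones n).card := by
  rw [Finset.sum_congr rfl (g := fun _ => (1 : ℤ)) (fun i hi => by
    rw [(Finset.mem_filter.1 hi).2]; rfl)]
  simp

omit [DecidableEq ι] in
theorem parity_S (n p : ι → ℕ) : (2 : ℤ) ∣ ∑ i, (2 * (p i : ℤ) - n i) + ∑ i, (n i : ℤ) := by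
  rw [← Finset.sum_add_distrib]
  exact Finset.dvd_sum fun i _ => by omega

theorem sol_no {n p : ι → ℕ} (hev : (∑ i, (n i : ℤ)) % 2 = 0)
    (h : Sol 1 n p) : ((ones n).card : ℤ) ≤ ∑ i ∈ bigs n, (n i : ℤ) ∧ ¬ Exc n (bigs n) (ones n).card := by
  obtain ⟨hp, hS, hsat⟩ := h
  have hpar := parity_S n p
  obtain ⟨S, hSdef⟩ : ∃ S, S = ∑ i, (2 * (p i : ℤ) - n i) := ⟨_, rfl⟩
  rw [← hSdef] at hS hsat hpar
  have hS0 : S ≤ 0 := by omega
  have hsat1 : ∑ i ∈ ones n, sat S (n i) (p i) = 0 := by
    apply Finset.sum_eq_zero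
    intro i hi
    have h1 := (Finset.mem_filter.1 hi).2
    have h2 := hp i
    rw [h1] at h2 ⊢
    exact sat_one hS0 h2
  rw [sum_split n (fun i => sat S (n i) (p i)), hsat1, zero_add] at hsat
  rw [sum_split n (fun i => (n i : ℤ)), sum_ones_n] at hsat hev hpar
  rw [sum_split n (fun i => 2 * (p i : ℤ) - n i)] at hSdef
  have hs1 : ∑ i ∈ ones n, (2 * (p i : ℤ) - n i) ≤ (ones n).card := by
    have := Finset.sum_le_sum (s := ones n) (f := fun i => 2 * (p i : ℤ) - n i)
      (g := fun _ => (1 : ℤ)) (fun i hi => by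
        have h1 := (Finset.mem_filter.1 hi).2
        have h2 := hp i
        show 2 * (p i : ℤ) - n i ≤ 1
        omega)
    simpa using this
  refine ⟨?_, ?_⟩
  · have : ∑ i ∈ bigs n, sat S (n i) (p i) ≤ ∑ i ∈ bigs n, (n i : ℤ) :=
      Finset.sum_le_sum fun i _ => sat_le (hp i)
    omega
  · rintro (⟨h3, hnd⟩ | ⟨ha1, hc, hodd⟩ | ⟨ha2, hc, hodd⟩)
    · rcases (by omega : S ≤ -2 ∨ S = 0) with hS2 | hS2
      · have h0 : ∑ i ∈ bigs n, sat S (n i) (p i) = 0 := by
          apply Finset.sum_eq_zero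
          intro i hi
          have h1 := h3 i hi
          have h2 := hp i
          rw [h1] at h2 ⊢
          unfold sat
          split_ifs <;> push_cast at * <;> omega
        rw [h0] at hsat
        have h5 : 0 ≤ ∑ i ∈ bigs n, (n i : ℤ) := Finset.sum_nonneg fun i _ => by positivity
        have h6 : (ones n).card = 0 := by omega
        exact hnd (by rw [h6]; simp)
      · subst hS2
        have h5 : ∀ i ∈ bigs n, gain (n i) (p i) ≤ -(2 * (p i : ℤ) - n i) := by
          intro i hi
          have h1 := h3 i hi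
          have h2 := hp i
          rw [h1] at h2 ⊢
          unfold gain sat
          split_ifs <;> push_cast at * <;> omega
        have h6 : ∑ i ∈ bigs n, gain (n i) (p i) =
            2 * ∑ i ∈ bigs n, sat 0 (n i) (p i) - ∑ i ∈ bigs n, (n i : ℤ) := by
          unfold gain
          rw [Finset.sum_sub_distrib, Finset.mul_sum]
        have h7 := Finset.sum_le_sum h5
        rw [Finset.sum_neg_distrib] at h7
        have h8 : ∑ i ∈ bigs n, gain (n i) (p i) = ∑ i ∈ bigs n, -(2 * (p i : ℤ) - n i) := by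
          rw [Finset.sum_neg_distrib]; omega
        have h9 := (Finset.sum_eq_sum_iff_of_le h5).1 h8
        have h10 : (3 : ℤ) ∣ ∑ i ∈ bigs n, gain (n i) (p i) := by
          apply Finset.dvd_sum
          intro i hi
          have h11 := h9 i hi
          have h1 := h3 i hi
          have h2 := hp i
          rw [h1] at h2 h11 ⊢
          unfold gain sat at h11 ⊢
          split_ifs at h11 ⊢ <;> push_cast at * <;> omega
        apply hnd
        have : (3 : ℤ) ∣ (ones n).card := by
          have : ((ones n).card : ℤ) = ∑ i ∈ bigs n, gain (n i) (p i) := by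
            rw [Finset.sum_neg_distrib] at h8
            omega
          rw [this]; exact h10
        exact_mod_cast this
    · obtain ⟨i, hi⟩ := Finset.card_eq_one.1 ha1
      obtain ⟨j, hj⟩ := Finset.card_eq_one.1 hc
      have h1 : n i = 1 := (Finset.mem_filter.1 (by rw [← ones, hi]; simp :
        i ∈ Finset.univ.filter fun i => n i = 1)).2
      have h2 := hodd j (by rw [hj]; simp)
      rw [ha1] at hs1 hev hsat hpar
      rw [hj] at hev hsat hSdef hpar
      rw [hi] at hSdef
      simp only [Finset.sum_singleton] at hs1 hev hsat hSdef hpar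
      have hpi := hp i
      have hpj := hp j
      unfold sat at hsat
      split_ifs at hsat <;> omega
    · obtain ⟨i, i', hii, hi⟩ := Finset.card_eq_two.1 ha2
      obtain ⟨j, j', hjj, hj⟩ := Finset.card_eq_two.1 hc
      have h1 : n i = 1 := (Finset.mem_filter.1 (by rw [← ones, hi]; simp :
        i ∈ Finset.univ.filter fun i => n i = 1)).2
      have h1' : n i' = 1 := (Finset.mem_filter.1 (by rw [← ones, hi]; simp :
        i' ∈ Finset.univ.filter fun i => n i = 1)).2
      have h2 := hodd j (by rw [hj]; simp)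
      have h3 := h2.2 j' (by rw [hj]; simp)
      rw [ha2] at hs1 hev hsat hpar
      rw [hj, Finset.sum_pair hjj] at hev hpar
      rw [hi, hj, Finset.sum_pair hii, Finset.sum_pair hjj] at hSdef
      rw [hj, Finset.sum_pair hjj, Finset.sum_pair hjj] at hsat
      have hpi := hp i
      have hpi' := hp i'
      have hpj := hp j
      have hpj' := hp j'
      unfold sat at hsat
      split_ifs at hsat <;> omega

theorem sol_yes {n : ι → ℕ} (hpos : ∀ i, 1 ≤ n i) (hev : (∑ i, (n i : ℤ)) % 2 = 0)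
    (h1 : ((ones n).card : ℤ) ≤ ∑ i ∈ bigs n, (n i : ℤ)) (h2 : ¬ Exc n (bigs n) (ones n).card) :
    ∃ p, Sol 1 n p := by
  have hdis : Disjoint (ones n) (bigs n) := Finset.disjoint_filter_filter_not _ _ _
  rw [sum_split n (fun i => (n i : ℤ)), sum_ones_n] at hev
  obtain ⟨x, y, hf, hx, hy, hp⟩ := exists_feas n (ones n).card (bigs n) (fun i hi => by
    have := (Finset.mem_filter.1 hi).2
    have := hpos i
    omega) h1 hev h2
  obtain ⟨p, hp1, hp2, hp3⟩ := hf (-(ones n).card) (by omega) (by omega) (by omega)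
  obtain ⟨r, hr⟩ : ∃ r : ι → ℕ, r = fun i => if n i = 1 then 1 else p i := ⟨_, rfl⟩
  have hrb : ∀ i ∈ bigs n, r i = p i := fun i hi => by
    rw [hr]; exact if_neg (Finset.mem_filter.1 hi).2
  have hro : ∀ i ∈ ones n, r i = 1 := fun i hi => by
    rw [hr]; exact if_pos (Finset.mem_filter.1 hi).2
  have hone : ∀ i ∈ ones n, n i = 1 := fun i hi => (Finset.mem_filter.1 hi).2
  have hsum : ∑ i, (2 * (r i : ℤ) - n i) = 0 := by
    rw [sum_split n]
    rw [Finset.sum_congr rfl (g := fun _ => (1 : ℤ)) (fun i hi => by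
      rw [hro i hi, hone i hi]; norm_num)]
    rw [Finset.sum_congr (s₁ := bigs n) rfl (g := fun i => (2 * (p i : ℤ) - n i)) (fun i hi => by
      rw [hrb i hi])]
    rw [hp2]
    simp
  refine ⟨r, ?_, ?_, ?_⟩
  · intro i
    by_cases hi : n i = 1
    · rw [hr]; simp [hi]
    · rw [hrb i (Finset.mem_filter.2 ⟨Finset.mem_univ _, hi⟩)]
      exact hp1 i (Finset.mem_filter.2 ⟨Finset.mem_univ _, hi⟩)
  · rw [hsum]; norm_num
  · rw [hsum, sum_split n (fun i => sat 0 (n i) (r i)), sum_split n (fun i => (n i : ℤ)),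
      sum_ones_n]
    have e1 : ∑ i ∈ ones n, sat 0 (n i) (r i) = 0 := by
      apply Finset.sum_eq_zero
      intro i hi
      rw [hone i hi, hro i hi]
      exact sat_one le_rfl le_rfl
    have e2 : ∑ i ∈ bigs n, sat 0 (n i) (r i) = ∑ i ∈ bigs n, sat 0 (n i) (p i) :=
      Finset.sum_congr rfl (fun i hi => by rw [hrb i hi])
    have e3 : ∑ i ∈ bigs n, gain (n i) (p i) =
        2 * ∑ i ∈ bigs n, sat 0 (n i) (p i) - ∑ i ∈ bigs n, (n i : ℤ) := by
      unfold gain
      rw [Finset.sum_sub_distrib, Finset.mul_sum]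
    rw [e1, e2]
    omega

/-- If the number of vertices is odd there is a solution of weight one. -/
theorem sol_odd {n : ι → ℕ} (hodd : (∑ i, (n i : ℤ)) % 2 = 1) :
    ∃ p, Sol 1 n p := by
  obtain ⟨T, hT⟩ : ∃ T : Finset ι, T = Finset.univ.filter fun i => n i % 2 = 1 := ⟨_, rfl⟩
  have hTc : (T.card : ℤ) % 2 = 1 := by
    have h1 : (2 : ℤ) ∣ ∑ i, ((n i : ℤ) - if n i % 2 = 1 then 1 else 0) :=
      Finset.dvd_sum fun i _ => by split_ifs <;> omega
    rw [Finset.sum_sub_distrib, ← Finset.sum_filter, ← hT] at h1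
    simp only [Finset.sum_const, nsmul_eq_mul, mul_one] at h1
    omega
  obtain ⟨P, hPT, hPc⟩ := Finset.exists_subset_card_eq (s := T) (n := (T.card + 1) / 2) (by omega)
  obtain ⟨p, hpdef⟩ : ∃ p : ι → ℕ, p = fun i => if i ∈ P then (n i + 1) / 2 else n i / 2 := ⟨_, rfl⟩
  have hs : ∀ i, 2 * (p i : ℤ) - n i = (if i ∈ P then 2 else 0) - (if i ∈ T then 1 else 0) := by
    intro i
    rw [hpdef]
    simp only
    by_cases h1 : i ∈ P
    · have h2 := hPT h1
      have h3 : n i % 2 = 1 := by rw [hT] at h2; exact (Finset.mem_filter.1 h2).2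
      rw [if_pos h1, if_pos h1, if_pos h2]
      omega
    · rw [if_neg h1, if_neg h1]
      by_cases h2 : i ∈ T
      · have h3 : n i % 2 = 1 := by rw [hT] at h2; exact (Finset.mem_filter.1 h2).2
        rw [if_pos h2]; omega
      · have h3 : ¬ n i % 2 = 1 := fun h => h2 (by rw [hT]; exact Finset.mem_filter.2 ⟨by simp, h⟩)
        rw [if_neg h2]; omega
  have hsum : ∑ i, (2 * (p i : ℤ) - n i) = 1 := by
    rw [Finset.sum_congr rfl (fun i _ => hs i), Finset.sum_sub_distrib, Finset.sum_ite_mem,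
      Finset.sum_ite_mem]
    simp only [Finset.univ_inter, Finset.sum_const, nsmul_eq_mul, mul_one]
    omega
  have hpn : ∀ i, p i ≤ n i := by
    intro i
    have h1 := hs i
    have h2 : 2 * (p i : ℤ) - n i ≤ 1 := by
      rw [h1]
      by_cases h5 : i ∈ P
      · rw [if_pos h5, if_pos (hPT h5)]; norm_num
      · rw [if_neg h5]; split_ifs <;> norm_num
    by_contra h3
    have h4 : n i = 0 := by omega
    have h5 : i ∉ T := fun h => by
      rw [hT] at h
      have h7 : n i % 2 = 1 := (Finset.mem_filter.1 h).2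
      omega
    have h6 : i ∉ P := fun h => h5 (hPT h)
    rw [if_neg h5, if_neg h6] at h1
    omega
  refine ⟨p, hpn, by rw [hsum], ?_⟩
  rw [hsum, Finset.mul_sum]
  apply Finset.sum_le_sum
  intro i _
  have h1 := hs i
  have h2 := hpn i
  unfold sat
  by_cases h3 : i ∈ P
  · rw [if_pos h3, if_pos (hPT h3)] at h1
    rw [if_pos (by omega), if_neg (by omega)]; omega
  · rw [if_neg h3] at h1
    by_cases h4 : i ∈ T
    · rw [if_pos h4] at h1
      rw [if_pos (by omega), if_pos (by omega)]; omega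
    · rw [if_neg h4] at h1
      rw [if_pos (by omega), if_neg (by omega)]; omega

/-- If the number of vertices is even there is a solution of weight at most two. -/
theorem sol_two_even {n : ι → ℕ} (hev : (∑ i, (n i : ℤ)) % 2 = 0) :
    ∃ p, Sol 2 n p := by
  obtain ⟨T, hT⟩ : ∃ T : Finset ι, T = Finset.univ.filter fun i => n i % 2 = 1 := ⟨_, rfl⟩
  have hTc : (T.card : ℤ) % 2 = 0 := by
    have h1 : (2 : ℤ) ∣ ∑ i, ((n i : ℤ) - if n i % 2 = 1 then 1 else 0) :=
      Finset.dvd_sum fun i _ => by split_ifs <;> omega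
    rw [Finset.sum_sub_distrib, ← Finset.sum_filter, ← hT] at h1
    simp only [Finset.sum_const, nsmul_eq_mul, mul_one] at h1
    omega
  rcases T.eq_empty_or_nonempty with hTe | hTne
  · have heven : ∀ i, n i % 2 = 0 := by
      intro i
      by_contra h
      have : i ∈ T := by rw [hT]; exact Finset.mem_filter.2 ⟨by simp, by omega⟩
      rw [hTe] at this
      simp at this
    obtain ⟨p, hpdef⟩ : ∃ p : ι → ℕ, ∀ i, p i = n i / 2 := ⟨fun i => n i / 2, fun _ => rfl⟩
    have h0 : ∀ i, 2 * (p i : ℤ) - n i = 0 := fun i => by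
      have := heven i; have := hpdef i; omega
    have hsum : ∑ i, (2 * (p i : ℤ) - n i) = 0 := Finset.sum_eq_zero fun i _ => h0 i
    refine ⟨p, fun i => by have := hpdef i; omega, by rw [hsum]; norm_num, ?_⟩
    rw [hsum, Finset.mul_sum]
    apply Finset.sum_le_sum
    intro i _
    have h1 := h0 i
    unfold sat
    rw [if_pos (by omega), if_neg (by omega)]; omega
  · have hTpos := Finset.card_pos.2 hTne
    obtain ⟨P, hPT, hPc⟩ := Finset.exists_subset_card_eq (s := T) (n := T.card / 2 + 1) (by omega)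
    obtain ⟨p, hpdef⟩ : ∃ p : ι → ℕ, p = fun i => if i ∈ P then (n i + 1) / 2 else n i / 2 :=
      ⟨_, rfl⟩
    have hs : ∀ i, 2 * (p i : ℤ) - n i = (if i ∈ P then 2 else 0) - (if i ∈ T then 1 else 0) := by
      intro i
      rw [hpdef]
      simp only
      by_cases h1 : i ∈ P
      · have h2 := hPT h1
        have h3 : n i % 2 = 1 := by rw [hT] at h2; exact (Finset.mem_filter.1 h2).2
        rw [if_pos h1, if_pos h1, if_pos h2]
        omega
      · rw [if_neg h1, if_neg h1]
        by_cases h2 : i ∈ T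
        · have h3 : n i % 2 = 1 := by rw [hT] at h2; exact (Finset.mem_filter.1 h2).2
          rw [if_pos h2]; omega
        · have h3 : ¬ n i % 2 = 1 := fun h => h2 (by
            rw [hT]; exact Finset.mem_filter.2 ⟨by simp, h⟩)
          rw [if_neg h2]; omega
    have hsum : ∑ i, (2 * (p i : ℤ) - n i) = 2 := by
      rw [Finset.sum_congr rfl (fun i _ => hs i), Finset.sum_sub_distrib, Finset.sum_ite_mem,
        Finset.sum_ite_mem]
      simp only [Finset.univ_inter, Finset.sum_const, nsmul_eq_mul, mul_one]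
      omega
    have hpn : ∀ i, p i ≤ n i := by
      intro i
      have h1 := hs i
      have h2 : 2 * (p i : ℤ) - n i ≤ 1 := by
        rw [h1]
        by_cases h5 : i ∈ P
        · rw [if_pos h5, if_pos (hPT h5)]; norm_num
        · rw [if_neg h5]; split_ifs <;> norm_num
      by_contra h3
      have h4 : n i = 0 := by omega
      have h5 : i ∉ T := fun h => by
        rw [hT] at h
        have h7 : n i % 2 = 1 := (Finset.mem_filter.1 h).2
        omega
      have h6 : i ∉ P := fun h => h5 (hPT h)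
      rw [if_neg h5, if_neg h6] at h1
      omega
    refine ⟨p, hpn, by rw [hsum], ?_⟩
    rw [hsum, Finset.mul_sum]
    apply Finset.sum_le_sum
    intro i _
    have h1 := hs i
    have h2 := hpn i
    unfold sat
    by_cases h3 : i ∈ P
    · rw [if_pos h3, if_pos (hPT h3)] at h1
      rw [if_pos (by omega), if_neg (by omega)]; omega
    · rw [if_neg h3] at h1
      by_cases h4 : i ∈ T
      · rw [if_pos h4] at h1
        rw [if_pos (by omega), if_pos (by omega)]; omega
      · rw [if_neg h4] at h1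
        rw [if_pos (by omega), if_pos (by omega)]; omega

omit [DecidableEq ι] in
theorem Sol.mono {k k' : ℤ} {n p : ι → ℕ} (h : Sol k n p) (hk : k ≤ k') : Sol k' n p :=
  ⟨h.1, h.2.1.trans hk, h.2.2⟩

/-- The complete arithmetic criterion. -/
theorem sol_iff {n : ι → ℕ} (hpos : ∀ i, 1 ≤ n i) {k : ℤ} (hk : 1 ≤ k) :
    (∃ p, Sol k n p) ↔ (2 ≤ k ∨ (∑ i, (n i : ℤ)) % 2 = 1 ∨
      (((ones n).card : ℤ) ≤ ∑ i ∈ bigs n, (n i : ℤ) ∧ ¬ Exc n (bigs n) (ones n).card)) := by
  constructor
  · rintro ⟨p, hp⟩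
    by_cases h2 : 2 ≤ k
    · exact Or.inl h2
    · by_cases h3 : (∑ i, (n i : ℤ)) % 2 = 1
      · exact Or.inr (Or.inl h3)
      · exact Or.inr (Or.inr (sol_no (by omega) (hp.mono (by omega))))
  · rintro (h | h | ⟨h1, h2⟩)
    · rcases Int.emod_two_eq_zero_or_one (∑ i, (n i : ℤ)) with h3 | h3
      · obtain ⟨p, hp⟩ := sol_two_even h3
        exact ⟨p, hp.mono h⟩
      · obtain ⟨p, hp⟩ := sol_odd h3
        exact ⟨p, hp.mono hk⟩
    · obtain ⟨p, hp⟩ := sol_odd h
      exact ⟨p, hp.mono hk⟩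
    · rcases Int.emod_two_eq_zero_or_one (∑ i, (n i : ℤ)) with h3 | h3
      · obtain ⟨p, hp⟩ := sol_yes hpos h3 h1 h2
        exact ⟨p, hp.mono hk⟩
      · obtain ⟨p, hp⟩ := sol_odd h3
        exact ⟨p, hp.mono hk⟩

end Pool.Agent.MajDom
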