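import Pool.Agent.Lib.MP_1ffe94_lc.Core

/-!
# Existence of the assignments
-/

namespace Pool.Agent.MajDom

variable {ι : Type*} [DecidableEq ι]

/-- The exceptional configurations (`a` is the number of parts of size one, `I` the set of the other
parts). -/
def Exc (n : ι → ℕ) (I : Finset ι) (a : ℕ) : Prop :=
  ((∀ i ∈ I, n i = 3) ∧ ¬ 3 ∣ a) ∨ (a = 1 ∧ I.card = 1 ∧ ∀ i ∈ I, n i % 2 = 1) ∨
    (a = 2 ∧ I.card = 2 ∧ ∀ i ∈ I, n i % 2 = 1 ∧ ∀ j ∈ I, n i = n j)

/-- Parts of size three only. -/
theorem feas_threes {n : ι → ℕ} : ∀ (b : ℕ) (I : Finset ι), I.card = b → (∀ i ∈ I, n i = 3) →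
    ∀ d : ℤ, -b ≤ d → d ≤ b → 2 ∣ (b - d) → Feas n I (3 * d) (-(3 * d))
  | 0, I, hI, h3, d, h1, h2, h4 => by
    have hd : d = 0 := by push_cast at h1 h2; omega
    subst hd
    rw [Finset.card_eq_zero] at hI
    subst hI
    simpa using feas_empty n
  | b + 1, I, hI, h3, d, h1, h2, h4 => by
    obtain ⟨i, hi⟩ : I.Nonempty := Finset.card_pos.1 (by omega)
    have hn : n i = 3 := h3 i hi
    have hc : (I.erase i).card = b := by rw [Finset.card_erase_of_mem hi]; omega
    have h3' : ∀ j ∈ I.erase i, n j = 3 := fun j hj => h3 j (Finset.mem_of_mem_erase hj)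
    rw [← Finset.insert_erase hi]
    push_cast at h1 h2 h4
    rcases le_or_gt d (b - 1) with h | h
    · have := feas_C (Finset.notMem_erase i I)
        (feas_threes b (I.erase i) hc h3' (d + 1) (by omega) (by omega) (by omega))
      rw [hn] at this
      convert this using 1 <;> push_cast <;> ring
    · have := feas_A_odd (Finset.notMem_erase i I) (by omega) (by omega) (by omega)
        (feas_threes b (I.erase i) hc h3' (d - 1) (by omega) (by omega) (by omega))
      rw [hn] at this
      convert this using 1 <;> push_cast <;> ring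

omit [DecidableEq ι] in
theorem two_dvd_sum_sub (n : ι → ℕ) (I : Finset ι) :
    (2 : ℤ) ∣ ∑ i ∈ I, (n i : ℤ) - ∑ i ∈ I, (2 + (n i % 2 : ℕ) : ℤ) := by
  rw [← Finset.sum_sub_distrib]
  exact Finset.dvd_sum fun i _ => by omega

omit [DecidableEq ι] in
theorem sum_le_sum_two_add {n : ι → ℕ} {I : Finset ι} (h2 : ∀ i ∈ I, 2 ≤ n i) :
    ∑ i ∈ I, (2 + (n i % 2 : ℕ) : ℤ) ≤ ∑ i ∈ I, (n i : ℤ) :=
  Finset.sum_le_sum fun i hi => by have := h2 i hi; omega

/-- The case of an even part. -/
theorem exists_feas_even {n : ι → ℕ} {a : ℕ} {I : Finset ι} (h2 : ∀ i ∈ I, 2 ≤ n i)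
    (hle0 : (a : ℤ) ≤ ∑ i ∈ I, (n i : ℤ))
    (hpar : ((a : ℤ) + ∑ i ∈ I, (n i : ℤ)) % 2 = 0) {e : ι} (he : e ∈ I) (hev : n e % 2 = 0)
    (ih : (a : ℤ) ≤ ∑ i ∈ I.erase e, (n i : ℤ) → ¬ Exc n (I.erase e) a →
      ∃ x y : ℤ, Feas n (I.erase e) x y ∧ (a : ℤ) ≤ x ∧ -(a : ℤ) ≤ y ∧ 2 ∣ ((a : ℤ) + y)) :
    ∃ x y : ℤ, Feas n I x y ∧ (a : ℤ) ≤ x ∧ -(a : ℤ) ≤ y ∧ 2 ∣ ((a : ℤ) + y) := by
  have hsum : ∑ i ∈ I, (n i : ℤ) = n e + ∑ i ∈ I.erase e, (n i : ℤ) :=
    (Finset.add_sum_erase I (fun i => (n i : ℤ)) he).symm
  have hins := Finset.insert_erase he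
  have hnot := Finset.notMem_erase e I
  have h2e := h2 e he
  have h2' : ∀ i ∈ I.erase e, 2 ≤ n i := fun i hi => h2 i (Finset.mem_of_mem_erase hi)
  rcases le_or_gt (a : ℤ) (∑ i ∈ I.erase e, (n i : ℤ)) with hle | hgt
  · by_cases hexc : Exc n (I.erase e) a
    · rcases hexc with ⟨h3, hnd⟩ | ⟨ha1, hc, hodd⟩ | ⟨ha2, hc, hodd⟩
      · -- threes
        have hs3 : ∑ i ∈ I.erase e, (n i : ℤ) = 3 * (I.erase e).card := by
          rw [Finset.sum_congr rfl (g := fun _ => (3 : ℤ)) (fun i hi => by rw [h3 i hi]; rfl)]
          simp [mul_comm]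
        rw [hsum, hs3] at hpar
        rw [hs3] at hle
        obtain ⟨b, hb⟩ : ∃ b, b = (I.erase e).card := ⟨_, rfl⟩
        rw [← hb] at hpar hle
        have hth := feas_threes b (I.erase e) hb.symm h3
        rcases (by omega : a % 3 = 1 ∨ a % 3 = 2) with h | h
        · rcases (by omega : n e = 2 ∨ 4 ≤ n e) with h4 | h4
          · have := feas_C hnot (hth ((a + 2) / 3) (by omega) (by omega) (by omega))
            rw [hins] at this
            exact ⟨_, _, this, by omega, by omega, by omega⟩
          · have := feas_A_even hnot (by omega) h2e hev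
              (hth ((a - 4) / 3) (by omega) (by omega) (by omega))
            rw [hins] at this
            exact ⟨_, _, this, by omega, by omega, by omega⟩
        · have := feas_A_even hnot (by omega) h2e hev
            (hth ((a - 2) / 3) (by omega) (by omega) (by omega))
          rw [hins] at this
          exact ⟨_, _, this, by omega, by omega, by omega⟩
      · -- one part
        obtain ⟨j, hj⟩ := Finset.card_eq_one.1 hc
        have hjm : j ∈ I.erase e := by rw [hj]; simp
        have hj2 := h2' j hjm
        have hjo := hodd j hjm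
        have hej : e ∉ ({j} : Finset ι) := by rw [← hj]; exact hnot
        have hI : I = insert e {j} := by rw [← hj, hins]
        rcases lt_or_ge (n e) (n j) with hlt | hge
        · have h1 := feas_A_odd (Finset.notMem_empty j) (le_refl _) (by omega) hjo (feas_empty n)
          have h2 := feas_C hej (by simpa using h1)
          rw [hI]
          exact ⟨_, _, h2, by omega, by omega, by omega⟩
        · have h1 := feas_C (Finset.notMem_empty j) (feas_empty n)
          have h2 := feas_A_even (x := -(n j : ℤ)) (y := n j) hej (by omega) h2e hev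
            (by simpa using h1)
          rw [hI]
          exact ⟨_, _, h2, by omega, by omega, by omega⟩
      · -- two equal parts
        obtain ⟨i, j, hij, hI'⟩ := Finset.card_eq_two.1 hc
        have him : i ∈ I.erase e := by rw [hI']; simp
        have hjm : j ∈ I.erase e := by rw [hI']; simp
        have hio := (hodd i him).1
        have heq := (hodd i him).2 j hjm
        have hi2 := h2' i him
        have hI : I = insert e {i, j} := by rw [← hI', hins]
        have hej : e ∉ ({i, j} : Finset ι) := by rw [← hI']; exact hnot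
        have h1 := feas_C (Finset.notMem_empty j) (feas_empty n)
        have h2 := feas_A_odd (x := -(n j : ℤ)) (y := n j) (i := i) (I := {j}) (by simpa using hij)
          (by omega) (by omega) hio (by simpa using h1)
        have h3 := feas_A_even hej (by omega) h2e hev h2
        rw [hI]
        exact ⟨_, _, h3, by omega, by omega, by omega⟩
    · obtain ⟨x, y, h, hx, hy, hp⟩ := ih hle hexc
      have := feas_B_even hnot hev h
      rw [hins] at this
      exact ⟨x, y, this, hx, hy, hp⟩
  · obtain ⟨y, hy, hy0, hye⟩ := feas_all_A I h2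
    have h6 := two_dvd_sum_sub n I
    have h7 := sum_le_sum_two_add h2'
    have h8 : ∑ i ∈ I, (2 + (n i % 2 : ℕ) : ℤ) = 2 + ∑ i ∈ I.erase e, (2 + (n i % 2 : ℕ) : ℤ) := by
      rw [← Finset.add_sum_erase I (fun i => (2 + (n i % 2 : ℕ) : ℤ)) he, hev]
      simp
    refine ⟨_, y, hy, hle0, ?_, ?_⟩
    · omega
    · omega

/-- The case of odd parts. -/
theorem exists_feas_odd {n : ι → ℕ} {a : ℕ} {I : Finset ι} (h3 : ∀ i ∈ I, 3 ≤ n i)
    (hodd : ∀ i ∈ I, n i % 2 = 1)
    (hle0 : (a : ℤ) ≤ ∑ i ∈ I, (n i : ℤ))
    (hpar : ((a : ℤ) + ∑ i ∈ I, (n i : ℤ)) % 2 = 0) (hexc : ¬ Exc n I a)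
    (ih : ∀ J ⊂ I, (a : ℤ) ≤ ∑ i ∈ J, (n i : ℤ) → ((a : ℤ) + ∑ i ∈ J, (n i : ℤ)) % 2 = 0 →
      ¬ Exc n J a →
      ∃ x y : ℤ, Feas n J x y ∧ (a : ℤ) ≤ x ∧ -(a : ℤ) ≤ y ∧ 2 ∣ ((a : ℤ) + y)) :
    ∃ x y : ℤ, Feas n I x y ∧ (a : ℤ) ≤ x ∧ -(a : ℤ) ≤ y ∧ 2 ∣ ((a : ℤ) + y) := by
  rcases I.eq_empty_or_nonempty with rfl | hne
  · simp only [Finset.sum_empty] at hle0
    exact ⟨0, 0, feas_empty n, by omega, by omega, by omega⟩
  obtain ⟨q, hq, hqmin⟩ := Finset.exists_min_image I n hne
  have hq3 := h3 q hq
  have hqo := hodd q hq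
  rcases (I.erase q).eq_empty_or_nonempty with hem | hne'
  · -- a single part
    have hI : I = {q} := by rw [← Finset.insert_erase hq, hem]; rfl
    subst hI
    rw [Finset.sum_singleton] at hle0 hpar
    have ha : a ≠ 1 := by
      intro h
      exact hexc (Or.inr (Or.inl ⟨h, by simp, by simpa using hqo⟩))
    have h1 := feas_A_odd (Finset.notMem_empty q) (le_refl _) hq3 hqo (feas_empty n)
    exact ⟨_, _, h1, by omega, by omega, by omega⟩
  obtain ⟨p, hp, hpmin⟩ := Finset.exists_min_image (I.erase q) n hne'
  have hpI := Finset.mem_of_mem_erase hp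
  have hp3 := h3 p hpI
  have hpo := hodd p hpI
  have hqp : n q ≤ n p := hqmin p hpI
  obtain ⟨J, hJ⟩ : ∃ J, J = (I.erase q).erase p := ⟨_, rfl⟩
  have hpJ : p ∉ J := by rw [hJ]; exact Finset.notMem_erase p _
  have hJq : insert p J = I.erase q := by rw [hJ, Finset.insert_erase hp]
  have hqJ : q ∉ insert p J := by rw [hJq]; exact Finset.notMem_erase q I
  have hqJ' : q ∉ J := fun h => hqJ (Finset.mem_insert_of_mem h)
  have hIe : I = insert q (insert p J) := by rw [hJq, Finset.insert_erase hq]
  have hqp' : q ≠ p := fun h => hqJ (by rw [h]; simp)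
  have hmem : ∀ i ∈ J, i ∈ I := fun i hi => by
    rw [hIe]; exact Finset.mem_insert_of_mem (Finset.mem_insert_of_mem hi)
  have hJp : ∀ i ∈ J, n p ≤ n i := fun i hi => hpmin i (by
    rw [← hJq]; exact Finset.mem_insert_of_mem hi)
  have hssub : J ⊂ I := by
    rw [Finset.ssubset_iff_of_subset hmem]
    exact ⟨q, hq, hqJ'⟩
  have hsum : ∑ i ∈ I, (n i : ℤ) = n q + (n p + ∑ i ∈ J, (n i : ℤ)) := by
    rw [hIe, Finset.sum_insert hqJ, Finset.sum_insert hpJ]
  have hcard : I.card = J.card + 2 := by
    rw [hIe, Finset.card_insert_of_notMem hqJ, Finset.card_insert_of_notMem hpJ]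
  rw [hsum] at hpar hle0
  rcases le_or_gt (a : ℤ) (∑ i ∈ J, (n i : ℤ)) with hle | hgt
  · by_cases hexc' : Exc n J a
    · rcases hexc' with ⟨h3J, hnd⟩ | ⟨ha1, hc, -⟩ | ⟨ha2, hc, hoddJ⟩
      · -- threes: impossible
        exfalso
        have hJne : J.Nonempty := by
          rw [Finset.nonempty_iff_ne_empty]
          rintro rfl
          simp only [Finset.sum_empty] at hle
          have : a = 0 := by omega
          subst this
          exact hnd (by simp)
        obtain ⟨j, hj⟩ := hJne
        have h5 := hJp j hj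
        rw [h3J j hj] at h5
        refine hexc (Or.inl ⟨fun i hi => ?_, hnd⟩)
        rw [hIe] at hi
        rcases Finset.mem_insert.1 hi with rfl | hi
        · omega
        · rcases Finset.mem_insert.1 hi with rfl | hi
          · omega
          · exact h3J i hi
      · -- one part left
        obtain ⟨j, hj⟩ := Finset.card_eq_one.1 hc
        subst hj
        have hjo := hodd j (hmem j (by simp))
        have hjp := hJp j (by simp)
        have hj5 : 5 ≤ n j := by
          by_contra hlt
          refine hexc (Or.inl ⟨fun i hi => ?_, by omega⟩)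
          rw [hIe] at hi
          rcases Finset.mem_insert.1 hi with rfl | hi
          · omega
          · rcases Finset.mem_insert.1 hi with rfl | hi
            · omega
            · rw [Finset.mem_singleton.1 hi]; omega
        rw [hIe]
        have f1 := feas_A_odd (Finset.notMem_empty j) (le_refl _) (by omega) hjo (feas_empty n)
        rw [insert_empty_eq] at f1
        rcases lt_or_ge (n p) (n j) with hlt | hge
        · have f2 := feas_C hpJ f1
          have f3 := feas_B_odd hqJ hqo f2
          exact ⟨_, _, f3, by omega, by omega, by omega⟩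
        · rcases lt_or_ge (n q) 5 with hq5 | hq5
          · have f2 := feas_C hpJ f1
            have f3 := feas_A_odd hqJ (by omega) hq3 hqo f2
            exact ⟨_, _, f3, by omega, by omega, by omega⟩
          · have f2 := feas_A_odd hpJ (by omega) hp3 hpo f1
            have f3 := feas_C hqJ f2
            exact ⟨_, _, f3, by omega, by omega, by omega⟩
      · -- two equal parts left
        obtain ⟨i, j, hij, hJe⟩ := Finset.card_eq_two.1 hc
        subst hJe
        have hio := hodd i (hmem i (by simp))
        have heq : n i = n j := (hoddJ i (by simp)).2 j (by simp)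
        have hip := hJp i (by simp)
        have hjp := hJp j (by simp)
        have hi5 : 5 ≤ n i := by
          by_contra hlt
          refine hexc (Or.inl ⟨fun k hk => ?_, by omega⟩)
          rw [hIe] at hk
          rcases Finset.mem_insert.1 hk with rfl | hk
          · omega
          · rcases Finset.mem_insert.1 hk with rfl | hk
            · omega
            · rcases Finset.mem_insert.1 hk with rfl | hk
              · omega
              · rw [Finset.mem_singleton.1 hk]; omega
        rw [hIe]
        have f1 := feas_A_odd (Finset.notMem_empty j) (le_refl _) (by omega) (by omega)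
          (feas_empty n)
        rw [insert_empty_eq] at f1
        have hij' : i ∉ ({j} : Finset ι) := by simpa using hij
        rcases lt_or_ge (n q) (n p) with hlt | hge
        · have f2 := feas_C hij' f1
          have f3 := feas_A_odd hpJ (by omega) hp3 hpo f2
          have f4 := feas_C hqJ f3
          exact ⟨_, _, f4, by omega, by omega, by omega⟩
        · rcases lt_or_ge (n p) (n i) with hlt' | hge'
          · have f2 := feas_A_odd hij' (by omega) (by omega) hio f1
            have f3 := feas_C hpJ f2
            have f4 := feas_C hqJ f3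
            exact ⟨_, _, f4, by omega, by omega, by omega⟩
          · have f2 := feas_A_odd hij' (by omega) (by omega) hio f1
            have f3 := feas_C hpJ f2
            have f4 := feas_B_odd hqJ hqo f3
            exact ⟨_, _, f4, by omega, by omega, by omega⟩
    · obtain ⟨x, y, h, hx, hy, hpp⟩ := ih J hssub hle (by omega) hexc'
      have f1 := feas_A_odd hpJ (by omega) hp3 hpo h
      have f2 := feas_C hqJ f1
      rw [hIe]
      exact ⟨_, _, f2, by omega, by omega, by omega⟩
  · -- the remaining parts are too small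
    have h3J : ∀ i ∈ J, 3 ≤ n i := fun i hi => h3 i (hmem i hi)
    have hs3 : 3 * (J.card : ℤ) ≤ ∑ i ∈ J, (n i : ℤ) := by
      have := Finset.sum_le_sum (s := J) (f := fun _ => (3 : ℤ)) (g := fun i => (n i : ℤ))
        (fun i hi => by have := h3J i hi; omega)
      simpa [mul_comm] using this
    have hallA : ∀ K : Finset ι, (∀ i ∈ K, i ∈ I) → Feas n K (∑ i ∈ K, (n i : ℤ)) (-(3 * K.card)) := by
      intro K hK
      obtain ⟨y, hy, -, hye⟩ := feas_all_A (n := n) K (fun i hi => by
        have := h3 i (hK i hi); omega)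
      have : y = -(3 * K.card) := by
        rw [hye, Finset.sum_congr rfl (g := fun _ => (3 : ℤ)) (fun i hi => by
          rw [hodd i (hK i hi)]; norm_num)]
        simp [mul_comm]
      rwa [this] at hy
    have hparJ : (∑ i ∈ J, (n i : ℤ) - J.card) % 2 = 0 := by
      have h7 : (2 : ℤ) ∣ ∑ i ∈ J, ((n i : ℤ) - 1) :=
        Finset.dvd_sum fun i hi => by have := hodd i (hmem i hi); omega
      rw [Finset.sum_sub_distrib] at h7
      simp only [Finset.sum_const, nsmul_eq_mul, mul_one] at h7
      omega
    rcases le_or_gt (3 * I.card) a with ha3 | ha3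
    · have := hallA I (fun i hi => hi)
      exact ⟨_, _, this, by rw [hsum]; omega, by omega, by omega⟩
    · rw [hcard] at ha3
      -- all but the smallest part in `A`
      rcases J.eq_empty_or_nonempty with rfl | hJne
      · simp only [Finset.sum_empty, Finset.card_empty] at *
        have ha : a = 2 ∨ a = 4 := by omega
        rw [hIe]
        have f1 := feas_A_odd (Finset.notMem_empty p) (le_refl _) (by omega) hpo (feas_empty n)
        rcases ha with ha | ha
        · rcases lt_or_ge (n q) (n p) with hlt | hge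
          · have f2 := feas_C hqJ f1
            exact ⟨_, _, f2, by omega, by omega, by omega⟩
          · exfalso
            refine hexc (Or.inr (Or.inr ⟨ha, by omega, fun i hi => ⟨hodd i hi, fun j hj => ?_⟩⟩))
            rw [hIe] at hi hj
            simp only [Finset.mem_insert, Finset.notMem_empty, or_false] at hi hj
            rcases hi with rfl | rfl <;> rcases hj with rfl | rfl <;> omega
        · rcases lt_or_ge (n p) 5 with hp5 | hp5
          · exfalso
            refine hexc (Or.inl ⟨fun i hi => ?_, by omega⟩)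
            rw [hIe] at hi
            simp only [Finset.mem_insert, Finset.notMem_empty, or_false] at hi
            rcases hi with rfl | rfl <;> omega
          · have f2 := feas_B_odd hqJ hqo f1
            exact ⟨_, _, f2, by omega, by omega, by omega⟩
      · have hcpos := Finset.card_pos.2 hJne
        rcases (by omega : ∑ i ∈ J, (n i : ℤ) = 3 * J.card ∨
          ∑ i ∈ J, (n i : ℤ) = 3 * J.card + 2) with h8 | h8
        · -- everything is a three
          exfalso
          have hall3 : ∀ i ∈ J, n i = 3 := by
            intro i hi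
            by_contra hne3
            have h9 : ∑ i ∈ J, (3 : ℤ) < ∑ i ∈ J, (n i : ℤ) :=
              Finset.sum_lt_sum (fun i hi => by have := h3J i hi; omega)
                ⟨i, hi, by have := h3J i hi; omega⟩
            simp only [Finset.sum_const, nsmul_eq_mul] at h9
            omega
          obtain ⟨j, hj⟩ := hJne
          have h5 := hJp j hj
          rw [hall3 j hj] at h5
          refine hexc (Or.inl ⟨fun i hi => ?_, by omega⟩)
          rw [hIe] at hi
          rcases Finset.mem_insert.1 hi with rfl | hi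
          · omega
          · rcases Finset.mem_insert.1 hi with rfl | hi
            · omega
            · exact hall3 i hi
        · have f1 := hallA (insert p J) (fun i hi => by
            rw [hIe]; exact Finset.mem_insert_of_mem hi)
          rw [Finset.card_insert_of_notMem hpJ, Finset.sum_insert hpJ] at f1
          have f2 := feas_B_odd hqJ hqo f1
          rw [hIe]
          exact ⟨_, _, f2, by omega, by push_cast; omega, by push_cast; omega⟩

theorem exists_feas (n : ι → ℕ) (a : ℕ) (I : Finset ι) : (∀ i ∈ I, 2 ≤ n i) →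
    (a : ℤ) ≤ ∑ i ∈ I, (n i : ℤ) → ((a : ℤ) + ∑ i ∈ I, (n i : ℤ)) % 2 = 0 → ¬ Exc n I a →
    ∃ x y : ℤ, Feas n I x y ∧ (a : ℤ) ≤ x ∧ -(a : ℤ) ≤ y ∧ 2 ∣ ((a : ℤ) + y) := by
  induction I using Finset.strongInduction with
  | H I ih =>
    intro h2 hle hpar hexc
    by_cases hev : ∃ e ∈ I, n e % 2 = 0
    · obtain ⟨e, he, hev⟩ := hev
      refine exists_feas_even h2 hle hpar he hev (fun h4 h5 => ?_)
      have hsum : ∑ i ∈ I, (n i : ℤ) = n e + ∑ i ∈ I.erase e, (n i : ℤ) :=
        (Finset.add_sum_erase I (fun i => (n i : ℤ)) he).symm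
      exact ih (I.erase e) (Finset.erase_ssubset he)
        (fun i hi => h2 i (Finset.mem_of_mem_erase hi)) h4 (by omega) h5
    · push Not at hev
      have hodd : ∀ i ∈ I, n i % 2 = 1 := fun i hi => by have := hev i hi; omega
      refine exists_feas_odd (fun i hi => ?_) hodd hle hpar hexc (fun J hJ h4 h5 h6 => ?_)
      · have := h2 i hi; have := hodd i hi; omega
      · exact ih J hJ (fun i hi => h2 i (hJ.1 hi)) h4 h5 h6

end Pool.Agent.MajDom
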